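import Pool.Agent.Lib.MP_9e3d42_al.CS.Fs

/-! Evaluation of power series in complete rings, and coefficient fields. -/

open IsLocalRing MvPowerSeries

namespace Pool.Agent.Lib.MP_9e3d42_al.CS

lemma exists_ev {σ O A : Type*} [Finite σ] [CommRing O] [CommRing A] (m : Ideal A)
    [IsAdicComplete m A] (ψ : O →+* A) (y : σ → A) (hy : ∀ i, y i ∈ m) :
    ∃ φ : MvPowerSeries σ O →+* A, (∀ o, φ (C o) = ψ o) ∧ ∀ i, φ (X i) = y i := by
  let e := MvPolynomial.eval₂Hom ψ y
  have h (n : ℕ) : MvPolynomial.idealOfVars σ O ^ n ≤ (m ^ n).comap e :=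
    (Ideal.pow_right_mono (Ideal.span_le.2 (by
      rintro _ ⟨i, rfl⟩
      exact ((MvPolynomial.eval₂Hom_X' ψ y i).symm ▸ hy i : e _ ∈ m))) n).trans (Ideal.le_comap_pow e n)
  let f (n : ℕ) : MvPowerSeries σ O →+* A ⧸ m ^ n :=
    (Ideal.quotientMap _ e (h n)).comp (truncTotalAlgHom σ O n)
  have hf {a b : ℕ} (hle : a ≤ b) : (Ideal.Quotient.factorPow m hle).comp (f b) = f a :=
    RingHom.ext fun p => Ideal.Quotient.eq.2 ((map_sub e _ _).symm ▸
      h a (truncTotal_sub_truncTotal_mem_pow_idealOfVars hle le_rfl p))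
  have key : (fun p : MvPolynomial σ O => IsAdicComplete.liftRingHom m f hf p) = e :=
    IsHausdorff.funext' m fun n p => (IsAdicComplete.mk_liftRingHom m f hf n _).trans
      (congrArg (Ideal.quotientMap _ e (h n)) ((truncTotalAlgHom σ O n).commutes p))
  refine ⟨IsAdicComplete.liftRingHom m f hf, fun o => ?_, fun i => ?_⟩
  · simpa [e] using congrFun key (.C o)
  · simpa [e] using congrFun key (.X i)

lemma approx {P A : Type*} [CommRing P] [CommRing A] (φ : P →+* A) (I : Ideal P)
    (h : ∀ a, ∃ p, a - φ p ∈ I.map φ) (n : ℕ) (a : A) : ∃ p, a - φ p ∈ I.map φ ^ n := by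
  induction n with
  | zero => exact ⟨0, by simp⟩
  | succ n ih =>
    obtain ⟨p, hp⟩ := ih
    rw [← Ideal.map_pow] at hp
    suffices ∀ c, ∃ q, c * (a - φ p) - φ q ∈ I.map φ ^ (n + 1) by
      obtain ⟨q, hq⟩ := this 1
      exact ⟨p + q, by rwa [map_add, ← sub_sub, ← one_mul (a - φ p)]⟩
    generalize a - φ p = b at hp
    induction hp using Submodule.span_induction with
    | mem _ hb =>
      obtain ⟨r, hr, rfl⟩ := hb
      intro c
      obtain ⟨q, hq⟩ := h c
      refine ⟨q * r, ?_⟩
      rw [map_mul, ← sub_mul, pow_succ']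
      exact Ideal.mul_mem_mul hq (Ideal.map_pow φ I n ▸ Ideal.mem_map_of_mem φ hr)
    | zero => exact fun c => ⟨0, by simp⟩
    | add x y _ _ h1 h2 =>
      intro c
      obtain ⟨q, hq⟩ := h1 c
      obtain ⟨r, hr⟩ := h2 c
      exact ⟨q + r, by convert add_mem hq hr using 1; rw [map_add]; ring⟩
    | smul d x _ h1 => exact fun c => by simpa only [smul_eq_mul, mul_assoc] using h1 (c * d)

/-- Existence of coefficient fields. -/
theorem coef_field (A : Type*) [CommRing A] [IsLocalRing A] [IsAdicComplete (maximalIdeal A) A]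
    (h : (ringChar (ResidueField A) : A) = 0) :
    ∃ s : ResidueField A →+* A, ∀ a, residue A (s a) = a := by
  suffices H : ∀ (F : Type) [Field F] [PerfectField F] [Algebra F A],
      ∃ s : ResidueField A →+* A, ∀ a, residue A (s a) = a by
    rcases CharP.char_is_prime_or_zero (ResidueField A) (ringChar (ResidueField A)) with hp | hp
    · have := Fact.mk hp
      have := (CharP.charP_iff_prime_eq_zero hp).2 h
      let _ := ZMod.algebra A (ringChar (ResidueField A))
      exact H (ZMod (ringChar (ResidueField A)))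
    · have : CharP (ResidueField A) 0 := hp ▸ inferInstance
      have := CharP.charP_to_charZero (ResidueField A)
      let _ := (IsLocalization.lift (M := nonZeroDivisors ℤ) (S := ℚ) (g := Int.castRingHom A)
        fun y => by
          rw [← residue_ne_zero_iff_isUnit, eq_intCast, map_intCast, Int.cast_ne_zero]
          exact nonZeroDivisors.coe_ne_zero y).toAlgebra
      exact H ℚ
  intro F _ _ _
  have := fs_field F (ResidueField A)
  obtain ⟨g, hg⟩ := Algebra.FormallySmooth.exists_mkₐ_comp_eq_of_isAdicComplete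
    (I := maximalIdeal A) (AlgHom.id F (ResidueField A))
  exact ⟨g, fun a => DFunLike.congr_fun hg a⟩

end Pool.Agent.Lib.MP_9e3d42_al.CS
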