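import Mathlib

/-! Domains of characteristic zero with prescribed reduction modulo a prime. -/

open IsLocalRing Polynomial

namespace Pool.Agent.Lib.MP_9e3d42_al.CS

universe u

lemma zorn_sub {V κ : Type*} [CommRing V] [Field κ] (ρ : V →+* κ) (hρ : Function.Surjective ρ)
    (p : ℕ) [CharP κ p] (hu : ∀ v, ρ v ≠ 0 → IsUnit v)
    (hs : ∀ G : V[X], G.Monic → ∀ a, (G.map ρ).IsRoot a → ∃ v, ρ v = a ∧ G.IsRoot v)
    (k : Subfield κ) : ∃ O : Subring V, (∀ o ∈ O, ρ o = 0 → ∃ o' ∈ O, o = p * o') ∧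
      (∀ o ∈ O, ρ o ∈ k) ∧ ∀ a ∈ k, ∃ o ∈ O, ρ o = a := by
  obtain ⟨O, -, ⟨h1, h2⟩, hm⟩ := zorn_le_nonempty₀
    {O : Subring V | (∀ o ∈ O, ρ o = 0 → ∃ o' ∈ O, o = p * o') ∧ ∀ o ∈ O, ρ o ∈ k}
    (fun c hc hch y hy => ⟨sSup c, ⟨fun o ho h => by
      obtain ⟨s, hs, ho⟩ := (Subring.mem_sSup_of_directedOn ⟨y, hy⟩ hch.directedOn).1 ho
      obtain ⟨o', h1, h2⟩ := (hc hs).1 o ho h
      exact ⟨o', le_sSup hs h1, h2⟩, fun o ho => by
      obtain ⟨s, hs, ho⟩ := (Subring.mem_sSup_of_directedOn ⟨y, hy⟩ hch.directedOn).1 ho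
      exact (hc hs).2 o ho⟩, fun z hz => le_sSup hz⟩) ⊥ ⟨fun o ho h => by
      obtain ⟨n, rfl⟩ := Subring.mem_bot.1 ho
      rw [map_intCast, CharP.intCast_eq_zero_iff κ p] at h
      obtain ⟨m, rfl⟩ := h
      exact ⟨m, intCast_mem _ m, by simp⟩, fun o ho => by
      obtain ⟨n, rfl⟩ := Subring.mem_bot.1 ho
      simp⟩
  have step : ∀ v, ρ v ∈ k → (∀ f : O[X], ρ (aeval v f) = 0 → ∃ g : O[X],
      aeval v f = p * aeval v g) → v ∈ O := fun v hv h => by
    refine hm (y := (aeval v : O[X] →ₐ[O] V).toRingHom.range) ⟨?_, ?_⟩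
      (fun o ho => ⟨C ⟨o, ho⟩, aeval_C ..⟩) ⟨X, aeval_X v⟩
    · rintro _ ⟨f, rfl⟩ e
      obtain ⟨g, hg⟩ := h f e
      exact ⟨_, ⟨g, rfl⟩, hg⟩
    · rintro _ ⟨f, rfl⟩
      induction f using Polynomial.induction_on' with
      | add f g h1 h2 => rw [map_add, map_add]; exact add_mem h1 h2
      | monomial n a =>
        simpa [aeval_monomial] using mul_mem (h2 (algebraMap O V a) a.2) (pow_mem hv n)
  have inv : ∀ o ∈ O, ∃ o' ∈ O, ρ o' = (ρ o)⁻¹ := fun o ho => by
    by_cases h : ρ o = 0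
    · exact ⟨0, zero_mem _, by simp [h]⟩
    obtain ⟨v, hv⟩ := (hu o h).exists_right_inv
    have e : ρ v = (ρ o)⁻¹ := eq_inv_of_mul_eq_one_right (by rw [← map_mul, hv, map_one])
    refine ⟨v, step v (e ▸ inv_mem (h2 o ho)) fun f hf => ?_, e⟩
    obtain ⟨a, ha, n, e1⟩ : ∃ a ∈ O, ∃ n : ℕ, aeval v f = a * v ^ n := by
      clear hf
      induction f using Polynomial.induction_on' with
      | add f g h1 h2 =>
        obtain ⟨a, ha, n, e1⟩ := h1
        obtain ⟨b, hb, m, e2⟩ := h2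
        refine ⟨a * o ^ m + b * o ^ n, add_mem (mul_mem ha (pow_mem ho _))
          (mul_mem hb (pow_mem ho _)), n + m, ?_⟩
        have k1 : ∀ j : ℕ, o ^ j * v ^ j = 1 := fun j => by rw [← mul_pow, hv, one_pow]
        rw [map_add, e1, e2]
        linear_combination -a * v ^ n * k1 m - b * v ^ m * k1 n
      | monomial n a => exact ⟨a, a.2, n, aeval_monomial v⟩
    rw [e1, map_mul, map_pow, e] at hf
    obtain ⟨b, hb, rfl⟩ := h1 a ha ((mul_eq_zero.1 hf).resolve_right (pow_ne_zero _ (inv_ne_zero h)))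
    exact ⟨monomial n ⟨b, hb⟩, by rw [e1, aeval_monomial, mul_assoc]; rfl⟩
  let F : Subfield κ := ⟨O.map ρ, by
    rintro _ ⟨o, ho, rfl⟩
    exact inv o ho⟩
  let τ : O →+* F := (ρ.comp O.subtype).codRestrict F fun o => ⟨o, o.2, rfl⟩
  have hτ : Function.Surjective τ := fun ⟨_, o, ho, e⟩ => ⟨⟨o, ho⟩, Subtype.ext e⟩
  refine ⟨O, h1, h2, fun a ha => ?_⟩
  have ev : ∀ v (f : O[X]), ρ (aeval v f) = aeval (ρ v) (f.map τ) := fun v f => by
    rw [aeval_def, aeval_def, eval₂_map, hom_eval₂]; rfl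
  obtain ⟨G, v, rfl, e1, e2⟩ : ∃ (G : O[X]) (v : V), ρ v = a ∧ G.map τ = minpoly F a ∧
      aeval v G = 0 := by
    by_cases hi : IsIntegral F a
    · obtain ⟨G, e, -, hG⟩ := lifts_and_natDegree_eq_and_monic
        ((mem_lifts _).2 (map_surjective τ hτ _)) (minpoly.monic hi)
      obtain ⟨v, h3, h4⟩ := hs _ (hG.map O.subtype) a (by
        have := minpoly.aeval F a
        rwa [← e, aeval_def, eval₂_map, eval₂_eq_eval_map, show (algebraMap F κ).comp τ =
          ρ.comp O.subtype from rfl, ← map_map] at this)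
      exact ⟨G, v, h3, e, (eval₂_eq_eval_map _).trans h4⟩
    · obtain ⟨v, rfl⟩ := hρ a
      exact ⟨0, v, rfl, by rw [minpoly.eq_zero hi, Polynomial.map_zero], map_zero _⟩
  refine ⟨v, step v ha fun f hf => ?_, rfl⟩
  obtain ⟨h, e3⟩ := minpoly.dvd F _ ((ev v f).symm.trans hf)
  obtain ⟨h, rfl⟩ := map_surjective τ hτ h
  obtain ⟨g, hg⟩ : C (p : O) ∣ f - G * h := (C_dvd_iff_dvd_coeff _ _).2 fun i => by
    obtain ⟨o, ho, e⟩ := h1 _ ((f - G * h).coeff i).2 (congrArg Subtype.val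
      (show τ ((f - G * h).coeff i) = 0 by rw [← coeff_map, Polynomial.map_sub, Polynomial.map_mul, e1, e3, sub_self,
        coeff_zero]))
    exact ⟨⟨o, ho⟩, Subtype.ext e⟩
  exact ⟨g, by simpa [e2] using congrArg (aeval v) hg⟩

theorem exists_lift_ring (k : Type u) [Field k] (p : ℕ) [CharP k p] :
    ∃ (O : Type u) (_ : CommRing O) (_ : IsDomain O) (_ : CharZero O) (ρ : O →+* k),
      Function.Surjective ρ ∧ RingHom.ker ρ = Ideal.span {(p : O)} := by
  let P := MvPolynomial k ℤ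
  let π : P →+* k := MvPolynomial.eval₂Hom (Int.castRingHom k) id
  have hπ : Function.Surjective π := fun a => ⟨.X a, MvPolynomial.eval₂Hom_X' ..⟩
  let Ω := AlgebraicClosure (FractionRing P)
  have hi : Function.Injective (algebraMap P Ω) :=
    (algebraMap (FractionRing P) Ω).injective.comp (IsFractionRing.injective P _)
  have := RingHom.ker_isPrime π
  let R := Localization.AtPrime (RingHom.ker π)
  obtain ⟨V, hV, hl⟩ := exists_factor_valuationRing (R := R)
    (IsLocalization.lift (M := (RingHom.ker π).primeCompl) (g := algebraMap P Ω) fun y =>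
      Ne.isUnit fun e => y.2 (hi (e.trans (map_zero _).symm) ▸ zero_mem _))
  obtain ⟨j, _⟩ : ∃ j : R →+* V, IsLocalHom j := ⟨_, hl⟩
  let ι : k →+* ResidueField V := π.liftOfSurjective hπ ⟨(residue V).comp
    (j.comp (algebraMap P R)), fun q hq => (residue_eq_zero_iff _).2 (map_nonunit j _
        ((IsLocalization.AtPrime.to_map_mem_maximal_iff R (RingHom.ker π) q).2 hq))⟩
  have := charP_of_injective_ringHom ι.injective p
  have := charZero_of_injective_algebraMap hi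
  obtain ⟨O, h1, h2, h3⟩ := zorn_sub (residue V) residue_surjective p
    (fun v => (residue_ne_zero_iff_isUnit v).1) (fun G hG a ha => by
      have hs : G.Splits := .of_splits_map_of_injective (i := algebraMap V Ω) Subtype.val_injective
        (IsAlgClosed.splits _) fun b hb => IsIntegrallyClosed.isIntegral_iff.1
          ⟨G, hG, (eval₂_eq_eval_map _).trans (isRoot_of_mem_roots hb)⟩
      have h0 := (hG.map (residue V)).ne_zero
      rw [← mem_roots h0, hs.roots_map_of_ne_zero h0, Multiset.mem_map] at ha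
      exact ha.imp fun v hv => ⟨hv.2, isRoot_of_mem_roots hv.1⟩) ι.fieldRange
  let e := ι.rangeRestrictFieldEquiv
  refine ⟨O, inferInstance, inferInstance, inferInstance, e.symm.toRingHom.comp
    (((residue V).comp O.subtype).codRestrict _ fun o => h2 o o.2), fun a => ?_, ?_⟩
  · obtain ⟨o, ho, h⟩ := h3 _ (e a).2
    exact ⟨⟨o, ho⟩, e.symm_apply_eq.2 (Subtype.ext h)⟩
  · refine le_antisymm (fun o ho => ?_) (Ideal.span_le.2 (by simp))
    obtain ⟨o', h4, h5⟩ := h1 o o.2 (congrArg Subtype.val (e.symm.map_eq_zero_iff.1 ho))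
    exact Ideal.mem_span_singleton.2 ⟨⟨o', h4⟩, Subtype.ext h5⟩

end Pool.Agent.Lib.MP_9e3d42_al.CS
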