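import Pool.Agent.Lib.MP_9e3d42_al.CS.Ev
import Pool.Agent.Lib.MP_9e3d42_al.CS.Zn

/-! Coefficient rings of complete local rings. -/

open IsLocalRing Algebra

namespace Pool.Agent.Lib.MP_9e3d42_al.CS

universe u

lemma dvr_of {O : Type*} [CommRing O] [IsLocalRing O] [IsHausdorff (maximalIdeal O) O] {x : O}
    (hm : maximalIdeal O = Ideal.span {x}) (hx : IsLeftRegular x) :
    ∃ _ : IsDomain O, IsDiscreteValuationRing O ∧ Irreducible x := by
  have key : ∀ {a : O}, a ≠ 0 → ∃ n : ℕ, Associated (x ^ n) a := fun {a} ha => by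
    by_contra! H
    refine ha (IsHausdorff.haus' (I := maximalIdeal O) a fun n => ?_)
    rw [SModEq.zero, smul_eq_mul, Ideal.mul_top, hm, Ideal.span_singleton_pow,
      Ideal.mem_span_singleton]
    induction n with
    | zero => simp
    | succ n ih =>
      obtain ⟨b, rfl⟩ := ih
      rw [pow_succ]
      exact mul_dvd_mul_left _ (Ideal.mem_span_singleton.1 (hm.le fun hb =>
        H n (associated_mul_unit_right _ _ hb)))
  have : NoZeroDivisors O := ⟨fun {a b} e => by
    by_contra! H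
    obtain ⟨n, u, rfl⟩ := key H.1
    exact H.2 (((hx.pow n).mul u.isRegular.1) (e.trans (mul_zero _).symm))⟩
  have := NoZeroDivisors.to_isDomain O
  have h := IsDiscreteValuationRing.irreducible_of_span_eq_maximalIdeal x hx.ne_zero hm
  exact ⟨this, .ofHasUnitMulPowIrreducibleFactorization ⟨x, h, key⟩, h⟩

theorem cohen_ring (k : Type u) [Field k] (p : ℕ) (hp : p.Prime) [CharP k p] :
    ∃ (O : Type u) (_ : CommRing O) (_ : IsDomain O) (_ : IsDiscreteValuationRing O)
      (_ : IsAdicComplete (maximalIdeal O) O) (_ : CharZero O) (ρ : O →+* k),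
      Irreducible (p : O) ∧ Function.Surjective ρ ∧ RingHom.ker ρ = Ideal.span {(p : O)} := by
  obtain ⟨R, _, _, _, ρ, h1, h2⟩ := exists_lift_ring k p
  have hM := RingHom.ker_isMaximal_of_surjective ρ h1
  generalize hI : RingHom.ker ρ = I at h2 hM
  have fg : I.FG := h2 ▸ Submodule.fg_span_singleton _
  have := AdicCompletion.isAdicComplete_self I fg
  have h3 := AdicCompletion.isMaximal_map_of_le I I le_rfl fg
  have := isLocalRing_of_isAdicComplete_maximal (I.map (algebraMap R (AdicCompletion I R)))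
  have h4 := (eq_maximalIdeal h3).symm
  have : IsAdicComplete (maximalIdeal (AdicCompletion I R)) (AdicCompletion I R) := h4 ▸ ‹_›
  have h5 : I.map (algebraMap R (AdicCompletion I R)) = Ideal.span {(p : AdicCompletion I R)} := by
    conv_lhs => enter [2]; rw [h2]
    rw [Ideal.map_span, Set.image_singleton, map_natCast]
  obtain ⟨_, _, h6⟩ := dvr_of (h4.trans h5) (isLeftRegular_iff_right_eq_zero_of_mul.2 fun a e => by
    induction a using AdicCompletion.induction_on with | _ a =>
    refine AdicCompletion.ext_evalₐ fun n => ?_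
    have e1 := congrArg (AdicCompletion.evalₐ I (n + 1)) e
    rw [map_mul, map_natCast, map_zero, AdicCompletion.evalₐ_mk,
      ← map_natCast (Ideal.Quotient.mk _), ← map_mul, Ideal.Quotient.eq_zero_iff_mem] at e1
    have e2 := SModEq.sub_mem.1 (a.2 n.le_succ)
    rw [smul_eq_mul, Ideal.mul_top] at e2
    rw [map_zero, AdicCompletion.evalₐ_mk, Ideal.Quotient.eq_zero_iff_mem,
      ← sub_add_cancel (a.1 n) (a.1 (n + 1))]
    refine add_mem e2 ?_
    generalize a.1 (n + 1) = b at e1
    rwa [h2, Ideal.span_singleton_pow, Ideal.mem_span_singleton, pow_succ',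
      mul_dvd_mul_iff_left (Nat.cast_ne_zero.2 hp.ne_zero), ← Ideal.mem_span_singleton,
      ← Ideal.span_singleton_pow, ← h2] at e1)
  let E := (Ideal.quotEquivOfEq hI.symm).trans (RingHom.quotientKerEquivOfSurjective h1)
  let τ := E.toRingHom.comp (AdicCompletion.evalOneₐ I).toRingHom
  refine ⟨AdicCompletion I R, _, ‹_›, ‹_›, ‹_›, ?_, τ, h6, E.surjective.comp
    (AdicCompletion.evalOneₐ_surjective I), ?_⟩
  · obtain ⟨q, hq⟩ := CharP.exists (AdicCompletion I R)
    rcases CharP.char_is_prime_or_zero (AdicCompletion I R) q with h | rfl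
    · have e := congrArg τ (CharP.cast_eq_zero (AdicCompletion I R) q)
      rw [map_natCast, map_zero, CharP.cast_eq_zero_iff k p, Nat.prime_dvd_prime_iff_eq hp h] at e
      exact (h6.ne_zero (e ▸ CharP.cast_eq_zero _ q)).elim
    · exact CharP.charP_to_charZero _
  · rw [RingHom.ker_comp_of_injective _ E.injective,
      AdicCompletion.ker_evalOneₐ_eq_map I fg, h5]

variable {R S A : Type*} [CommRing R] [CommRing S] [CommRing A] [Algebra R S] [Module.Flat R S]
  {I : Ideal R} (h : FormallySmooth (R ⧸ I) (S ⧸ I.map (algebraMap R S)))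

include h

lemma fs_pow (n : ℕ) :
    FormallySmooth (R ⧸ I ^ (n + 1)) (S ⧸ (I ^ (n + 1)).map (algebraMap R S)) := by
  induction n with
  | zero => rwa [zero_add, pow_one]
  | succ n ih =>
    have hle : I ^ (n + 1 + 1) ≤ I ^ (n + 1) := Ideal.pow_le_pow_right (Nat.le_succ _)
    refine RingHom.formallySmooth_algebraMap.1 (.of_flat_of_ker_eq_map_of_square_zero _
      (RingHom.flat_algebraMap_iff.2 (.of_linearEquiv
        (TensorProduct.quotIdealMapEquivQuotTensor S _).toLinearEquiv))
      (Ideal.Quotient.factor hle) (Ideal.Quotient.factor (Ideal.map_mono hle)) _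
      (Ideal.Quotient.factor_surjective _) (Ideal.Quotient.factor_surjective _)
      (Ideal.Quotient.ringHom_ext rfl) ?_ ?_ (RingHom.formallySmooth_algebraMap.2 ih))
    · rw [Ideal.Quotient.factor_ker, ← Ideal.map_pow, ← pow_mul]
      exact Ideal.map_mk_eq_bot_of_le (Ideal.pow_le_pow_right (by omega))
    · simp only [Ideal.Quotient.factor_ker, Ideal.map_map]
      rfl

lemma lift_adic [Algebra R A] (m : Ideal A) [IsAdicComplete m A]
    (hI : I ≤ m.comap (algebraMap R A)) (f : S →ₐ[R] A ⧸ m) :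
    ∃ g : S →+* A, ∀ s, Ideal.Quotient.mk m (g s) = f s := by
  have step (n : ℕ) (φ : S →ₐ[R] A ⧸ m ^ (n + 1)) : ∃ ψ : S →ₐ[R] A ⧸ m ^ (n + 1 + 1),
      (Ideal.Quotient.factorPow m (n + 1).le_succ).comp ψ = (φ : S →+* _) := by
    have := fs_pow h (n + 1)
    have h1 : I ^ (n + 1 + 1) ≤ (m ^ (n + 1 + 1)).comap (algebraMap R A) :=
      (Ideal.pow_right_mono hI _).trans (Ideal.le_comap_pow _ _)
    have h2 := h1.trans (Ideal.comap_mono (Ideal.pow_le_pow_right (n + 1).le_succ))
    let _ := Ideal.Quotient.algebraQuotientOfLEComap h1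
    let _ := Ideal.Quotient.algebraQuotientOfLEComap h2
    let a : (S ⧸ (I ^ (n + 1 + 1)).map (algebraMap R S)) →ₐ[R ⧸ I ^ (n + 1 + 1)] A ⧸ m ^ (n + 1) :=
      ⟨Ideal.Quotient.lift _ φ (Ideal.map_le_iff_le_comap (K := RingHom.ker φ).2 fun r hr =>
        (φ.commutes r).trans (Ideal.Quotient.eq_zero_iff_mem.2 (h2 hr))),
        Ideal.Quotient.mk_surjective.forall.2 φ.commutes⟩
    let b : (A ⧸ m ^ (n + 1 + 1)) →ₐ[R ⧸ I ^ (n + 1 + 1)] A ⧸ m ^ (n + 1) :=
      ⟨Ideal.Quotient.factorPow m (Nat.le_succ _), Ideal.Quotient.mk_surjective.forall.2 fun _ => rfl⟩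
    have h3 : IsNilpotent (RingHom.ker b) := ⟨2, by
      refine (congrArg (· ^ 2) (Ideal.Quotient.factor_ker
        (Ideal.pow_le_pow_right (n + 1).le_succ))).trans ?_
      simp only [← Ideal.map_pow, ← pow_mul]
      exact Ideal.map_mk_eq_bot_of_le (Ideal.pow_le_pow_right (by omega))⟩
    let l := FormallySmooth.liftOfSurjective a b (Ideal.Quotient.factor_surjective
      (Ideal.pow_le_pow_right (n + 1).le_succ)) h3
    exact ⟨⟨l.toRingHom.comp (Ideal.Quotient.mk _), fun r => l.commutes (Ideal.Quotient.mk _ r)⟩,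
      RingHom.ext fun s => FormallySmooth.liftOfSurjective_apply a b _ h3 _⟩
  choose G hG using step
  let F : ∀ n : ℕ, S →ₐ[R] A ⧸ m ^ (n + 1) := fun n =>
    n.rec ((Ideal.Quotient.factorₐ R (pow_one m).ge).comp f) G
  have ha : StrictMono fun n : ℕ => n + 1 := fun _ _ => Nat.succ_lt_succ
  have hF {n : ℕ} : (Ideal.Quotient.factorPow m (ha.monotone n.le_succ)).comp
    (F (n + 1)).toRingHom = (F n).toRingHom := hG n (F n)
  refine ⟨IsAdicComplete.StrictMono.liftRingHom m ha (fun n => (F n).toRingHom) hF, fun s => ?_⟩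
  have e := IsAdicComplete.StrictMono.mk_liftRingHom m ha (fun n => (F n).toRingHom) hF (n := 0) s
  obtain ⟨a, ha⟩ := Ideal.Quotient.mk_surjective (f s)
  exact (Ideal.Quotient.eq.2 ((pow_one m).le (Ideal.Quotient.eq.1
    (e.trans (congrArg (Ideal.Quotient.factorₐ R (pow_one m).ge) ha.symm))))).trans ha

omit h

/-- Existence of coefficient rings with a prescribed uniformizer. -/
theorem coef_dvr (A : Type u) [CommRing A] [IsLocalRing A] [IsAdicComplete (maximalIdeal A) A]
    {x : A} (hx : x ∈ maximalIdeal A)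
    (h : (ringChar (ResidueField A) : A) = 0 ∨ x = ringChar (ResidueField A)) :
    ∃ (O : Type u) (_ : CommRing O) (_ : IsDomain O) (_ : IsDiscreteValuationRing O)
      (_ : IsAdicComplete (maximalIdeal O) O) (w : O) (ψ : O →+* A),
      Irreducible w ∧ ψ w = x ∧ ∀ a, ∃ o, a - ψ o ∈ maximalIdeal A := by
  by_cases h0 : (ringChar (ResidueField A) : A) = 0
  · obtain ⟨s, hs⟩ := coef_field A h0
    obtain ⟨φ, h1, h2⟩ := exists_ev (σ := Unit) (maximalIdeal A) s (fun _ => x) fun _ => hx
    exact ⟨PowerSeries (ResidueField A), _, inferInstance, inferInstance,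
      PowerSeries.maximalIdeal_eq_span_X (k := ResidueField A) ▸ inferInstance, .X, φ,
      PowerSeries.X_irreducible, h2 (), fun a => ⟨MvPowerSeries.C (residue A a), by
        rw [h1, ← residue_eq_zero_iff, map_sub, hs, sub_self]⟩⟩
  obtain rfl := h.resolve_left h0
  have hk : CharP (ResidueField A) (ringChar (ResidueField A)) := inferInstance
  generalize ringChar (ResidueField A) = p at *
  have hp := (CharP.char_is_prime_or_zero (ResidueField A) p).resolve_right (by
    rintro rfl; exact h0 Nat.cast_zero)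
  obtain ⟨O, _, _, _, _, _, ρ, h1, h2, h3⟩ := cohen_ring (ResidueField A) p hp
  have h4 : (Ideal.span {(p : ℤ)}).map (algebraMap ℤ O) = RingHom.ker ρ := by
    simp [Ideal.map_span, h3]
  have := Fact.mk hp
  have : ((Ideal.span {(p : ℤ)}).map (algebraMap ℤ O)).IsMaximal :=
    h4 ▸ RingHom.ker_isMaximal_of_surjective ρ h2
  obtain ⟨g, hg⟩ := lift_adic (R := ℤ) (S := O) (I := Ideal.span {(p : ℤ)}) (by
    let _ := Ideal.Quotient.field (Ideal.span {(p : ℤ)})
    let _ := Ideal.Quotient.field ((Ideal.span {(p : ℤ)}).map (algebraMap ℤ O))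
    have := Ideal.finiteQuotientOfFreeOfNeBot (Ideal.span {(p : ℤ)}) (by simpa using hp.ne_zero)
    exact fs_field (ℤ ⧸ Ideal.span {(p : ℤ)}) _) (maximalIdeal A) (by simpa [Ideal.span_le] using hx) ρ.toIntAlgHom
  refine ⟨O, _, ‹_›, ‹_›, ‹_›, p, g, h1, map_natCast g p, fun a => ?_⟩
  obtain ⟨o, ho⟩ := h2 (residue A a)
  exact ⟨o, Ideal.Quotient.eq.1 ((hg o).trans ho).symm⟩

end Pool.Agent.Lib.MP_9e3d42_al.CS
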