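import Pool.Agent.Lib.MP_9e3d42_al.CS.Pr
import Pool.Agent.Lib.MP_9e3d42_al.CS.Cr
import Pool.Agent.Lib.MP_9e3d42_al.AD.Serre

/-! Structure of one-dimensional complete intersections of codimension at most two. -/

open IsLocalRing RingTheory.Sequence

namespace Pool.Agent.Lib.MP_9e3d42_al.CS

universe u

lemma KD.flat {B A : Type*} [CommRing B] [CommRing A] [Algebra B A] [Module.Flat B A] {x y z : B}
    (h : KD x y z) : KD (algebraMap B A x) (algebraMap B A y) (algebraMap B A z) := by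
  obtain ⟨a, b, c, d, e, f, h1, h2, h⟩ := h
  refine ⟨algebraMap B A a, algebraMap B A b, algebraMap B A c, algebraMap B A d, algebraMap B A e,
    algebraMap B A f, by simpa using congrArg (algebraMap B A) h1,
    by simpa using congrArg (algebraMap B A) h2, fun u v w H => ?_⟩
  obtain ⟨n, p, q, h3, h4⟩ := Module.Flat.isTrivialRelation_of_sum_smul_eq_zero (f := ![x, y, z])
    (x := ![u, v, w]) (by simpa [Fin.sum_univ_three, Algebra.smul_def, mul_comm] using H)
  choose α β r s t k1 k2 k3 using fun j => h (p 0 j) (p 1 j) (p 2 j) (by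
    simpa [Fin.sum_univ_three, mul_comm] using h4 j)
  refine ⟨∑ j, α j • q j, ∑ j, β j • q j, ∑ j, r j • q j, ∑ j, s j • q j, ∑ j, t j • q j,
    (h3 0).trans ?_, (h3 1).trans ?_, (h3 2).trans ?_⟩ <;>
  simp only [Finset.sum_mul, ← Finset.sum_add_distrib, ← Finset.sum_sub_distrib, k1, k2, k3,
    Algebra.smul_def, map_add, map_sub, map_mul] <;>
  exact Finset.sum_congr rfl fun _ _ => by ring

lemma kd_of {S B : Type*} [CommRing S] [CommRing B] {π : S →+* B} (hπ : Function.Surjective π)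
    {x y z : S} (a b c d e f : S) (h1 : π (a * x + b * y + c * z) = 0)
    (h2 : π (d * x + e * y + f * z) = 0) (h : ∀ u v w, π (u * x + v * y + w * z) = 0 →
      ∃ α β r s t, u = α * a + β * d + r * y + s * z ∧ v = α * b + β * e - r * x + t * z ∧
        w = α * c + β * f - s * x - t * y) : KD (π x) (π y) (π z) := by
  refine ⟨π a, π b, π c, π d, π e, π f, by simpa using h1, by simpa using h2, ?_⟩
  simp only [hπ.forall]
  intro u v w H
  obtain ⟨α, β, r, s, t, rfl, rfl, rfl⟩ := h u v w (by simpa using H)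
  exact ⟨π α, π β, π r, π s, π t, by simp⟩

lemma kd_quot {S : Type u} [CommRing S] [IsRegularLocalRing S] {fs : List S} (hl : fs.length ≤ 2)
    (hf : Ideal.ofList fs ≤ maximalIdeal S) {x : S} (h0 : x ≠ 0)
    (h : AD.RS (maximalIdeal S) (Ideal.span {x}) fs.length) :
    ∃ y z, maximalIdeal S = Ideal.span {x, y, z} ∧ KD (Ideal.Quotient.mk (Ideal.ofList fs) x)
      (Ideal.Quotient.mk _ y) (Ideal.Quotient.mk _ z) := by
  have := AD.reg_domain (R := S)
  have hπ := Ideal.Quotient.mk_surjective (I := Ideal.ofList fs)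
  generalize maximalIdeal S = m at *
  obtain _ | ⟨f, _ | ⟨g, _ | _⟩⟩ := fs
  · cases h
    refine ⟨0, 0, by simp, kd_of hπ 0 1 0 0 0 1 (by simp) (by simp) fun u v w H =>
      ⟨v, w, 0, 0, 0, ?_⟩⟩
    simpa [Ideal.Quotient.eq_zero_iff_mem, h0, -map_mul] using H
  · obtain _ | ⟨_, _, y, -, hy, h⟩ := h
    cases h
    simp only [Ideal.ofList_singleton, ← Ideal.span_insert, Ideal.span_singleton_le_iff_mem,
      Ideal.mem_span_pair, Ideal.mem_span_singleton'] at hf hy
    obtain ⟨a, b, rfl⟩ := hf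
    refine ⟨y, 0, by simp [Ideal.span_insert], kd_of hπ a b 0 0 0 1 (by
      simp [Ideal.Quotient.eq_zero_iff_mem, -map_add]) (by simp) fun u v w H => ?_⟩
    rw [Ideal.Quotient.eq_zero_iff_mem, Ideal.ofList_singleton, Ideal.mem_span_singleton'] at H
    obtain ⟨α, H⟩ := H
    obtain ⟨r, hr⟩ := hy (α * b - v) ⟨u - α * a, by linear_combination -H⟩
    exact ⟨α, w, r, 0, 0, mul_left_cancel₀ h0 (by linear_combination -H - y * hr),
      by linear_combination hr, by ring⟩
  · obtain _ | ⟨_, _, y, -, hy, _ | ⟨_, _, z, -, hz, h⟩⟩ := h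
    cases h
    have e : Ideal.span {x} ⊔ Ideal.span {y} ⊔ Ideal.span {z} = Ideal.span {x, y, z} := by
      simp [Ideal.span_insert, sup_assoc]
    have e' : Ideal.ofList [f, g] = Ideal.span {f, g} := by simp [Ideal.span_insert]
    rw [e, e', Ideal.span_le, Set.pair_subset_iff] at hf
    simp only [← Ideal.span_insert, Ideal.mem_span_singleton',
      SetLike.mem_coe, Ideal.mem_span_insert] at hf hy hz
    obtain ⟨⟨a, _, ⟨b, _, ⟨c, rfl⟩, rfl⟩, e1⟩, d, _, ⟨k, _, ⟨l, rfl⟩, rfl⟩, e2⟩ := hf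
    rw [← add_assoc] at e1 e2
    subst e1 e2
    refine ⟨y, z, e, kd_of hπ a b c d k l (Ideal.Quotient.eq_zero_iff_mem.2 (e'.ge
      (Ideal.subset_span (.inl rfl)))) (Ideal.Quotient.eq_zero_iff_mem.2 (e'.ge
      (Ideal.subset_span (.inr rfl)))) fun u v w H => ?_⟩
    obtain ⟨α, β, H⟩ := Ideal.mem_span_pair.1 (e'.le (Ideal.Quotient.eq_zero_iff_mem.1 H))
    obtain ⟨s, _, ⟨t, rfl⟩, hs⟩ := hz (α * c + β * l - w) ⟨u - α * a - β * d, _,
      ⟨v - α * b - β * k, rfl⟩, by linear_combination H⟩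
    obtain ⟨r, hr⟩ := hy (α * b + β * k + t * z - v) ⟨u - α * a - β * d - s * z, by
      linear_combination -H + z * hs⟩
    exact ⟨α, β, r, s, t, mul_left_cancel₀ h0 (by linear_combination -H + z * hs - y * hr),
      by linear_combination hr, by linear_combination -hs⟩
  · simp at hl

theorem cohen_ci (S : Type u) [CommRing S] [IsRegularLocalRing S] (fs : List S)
    (hfs : IsRegular S fs) (hl : fs.length ≤ 2) (hd : ringKrullDim (S ⧸ Ideal.ofList fs) = 1)
    (hc : (ringChar (ResidueField S) : S ⧸ Ideal.ofList fs) = 0 ∨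
      ((ringChar (ResidueField S) : S) ∉ maximalIdeal S ^ 2 ∧
        (ringChar (ResidueField S) : S ⧸ Ideal.ofList fs) ∈
          nonZeroDivisors (S ⧸ Ideal.ofList fs)))
    [IsLocalRing (S ⧸ Ideal.ofList fs)] :
    ∃ (O : Type u) (_ : CommRing O) (_ : IsDomain O) (_ : IsDiscreteValuationRing O)
      (_ : IsAdicComplete (maximalIdeal O) O) (w : O) (F G : MvPowerSeries (Fin 2) O),
      Irreducible w ∧ IsRegular (MvPowerSeries (Fin 2) O) [F, G, MvPowerSeries.C w] ∧
      Nonempty (AdicCompletion (maximalIdeal (S ⧸ Ideal.ofList fs)) (S ⧸ Ideal.ofList fs) ≃+*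
        MvPowerSeries (Fin 2) O ⧸ Ideal.span {F, G}) := by
  have h1 := ringKrullDim_add_length_eq_ringKrullDim_of_isRegular fs hfs
  have hf := le_maximalIdeal (Ideal.Quotient.nontrivial_iff.1
    (inferInstance : Nontrivial (S ⧸ Ideal.ofList fs)))
  have hK := fun x => kd_quot hl hf (x := x)
  generalize Ideal.ofList fs = I at *
  let π := Ideal.Quotient.mk I
  have hπ : Function.Surjective π := Ideal.Quotient.mk_surjective
  have := IsLocalHom.of_surjective π hπ
  have hm := map_maximalIdeal_of_surjective π hπ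
  have hh : (maximalIdeal (S ⧸ I)).height = 1 := by
    exact_mod_cast maximalIdeal_height_eq_ringKrullDim.trans hd
  have hn : maximalIdeal (S ⧸ I) ∉ minimalPrimes (S ⧸ I) := fun h => by
    simpa using hh.symm.trans (Ideal.height_eq_zero_iff.2 h)
  obtain ⟨x, x1, x2, x3, x4⟩ : ∃ x ∈ maximalIdeal S, x ∉ maximalIdeal S ^ 2 ∧
      (∀ P ∈ minimalPrimes (S ⧸ I), π x ∉ P) ∧
      ((ringChar (ResidueField S) : S ⧸ I) = 0 ∨ x = ringChar (ResidueField S)) := by
    obtain hc | ⟨h2, h3⟩ := hc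
    · obtain ⟨x, hx, hx'⟩ := Set.not_subset.1 (mt (Ideal.subset_union_prime_finite (f := id)
        (((minimalPrimes.finite_of_isNoetherianRing (S ⧸ I)).image (Ideal.comap π)).insert
          (maximalIdeal S ^ 2)) (maximalIdeal S ^ 2) (maximalIdeal S ^ 2) (fun P hP h _ => by
          obtain ⟨Q, hQ, rfl⟩ := hP.resolve_left h
          exact (Ideal.IsMinimalPrime.isPrime hQ).comap π) (I := maximalIdeal S)).1 (by
        rintro ⟨_, rfl | ⟨Q, hQ, rfl⟩, h⟩
        · rw [AD.rg_nak (h.trans_eq (pow_two _)), Ideal.map_bot] at hm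
          simp [← hm] at hh
        · exact hn ((le_maximalIdeal (Ideal.IsMinimalPrime.isPrime hQ).ne_top).antisymm
            (hm.ge.trans (Ideal.map_le_iff_le_comap.2 h)) ▸ hQ)))
      simp only [Set.mem_iUnion, not_exists] at hx'
      exact ⟨x, hx, hx' _ (.inl rfl), fun P hP => hx' _ (.inr ⟨P, hP, rfl⟩), .inl hc⟩
    · exact ⟨_, (residue_eq_zero_iff _).1 (by simp), h2, fun P hP h =>
        notMem_nonZeroDivisors_of_mem_mem_minimalPrimes h hP (by simpa using h3), .inr rfl⟩
  have x0 : x ≠ 0 := fun e => x2 (e ▸ zero_mem _)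
  have := AD.reg_quot x1 x2
  have := AD.reg_domain (R := S)
  obtain ⟨d, h2⟩ := AD.reg_rs (R := S ⧸ Ideal.span {x})
  have h3 := h2.comap Ideal.Quotient.mk_surjective
  have := IsLocalHom.of_surjective _ (Ideal.Quotient.mk_surjective (I := Ideal.span {x}))
  rw [maximalIdeal_comap, ← RingHom.ker_eq_comap_bot, Ideal.mk_ker] at h3
  obtain rfl : d = fs.length := by
    rw [hd, ← ringKrullDim_quotient_span_singleton_succ_eq_ringKrullDim_of_mem_nonZeroDivisors
      (mem_nonZeroDivisors_of_ne_zero x0) x1, h2.dim_bot] at h1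
    norm_cast at h1
    omega
  obtain ⟨y, z, h4, h5⟩ := hK x x0 h3
  obtain ⟨n, h6⟩ := Ideal.exists_pow_le_of_le_radical_of_fg (J := Ideal.span {π x})
    (I := maximalIdeal (S ⧸ I)) (by
      rw [Ideal.radical_eq_sInf]
      refine le_sInf fun Q ⟨hQ, _⟩ => ((le_maximalIdeal Ideal.IsPrime.ne_top').eq_or_lt.resolve_right
        fun h => x3 Q ?_ (hQ (Ideal.mem_span_singleton_self _))).ge
      have := Ideal.height_strict_mono_of_isPrime h
      rwa [hh, Order.lt_one_iff, Ideal.height_eq_zero_iff] at this) (Ideal.fg_of_isNoetherianRing _)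
  let A := AdicCompletion (maximalIdeal (S ⧸ I)) (S ⧸ I)
  have h7 : maximalIdeal A = _ := AdicCompletion.maximalIdeal_eq_map
  have h8 : ringChar (ResidueField A) = ringChar (ResidueField S) := by
    have := charP_of_injective_ringHom ((ResidueField.map (algebraMap _ A)).comp
      (ResidueField.map π)).injective (ringChar (ResidueField S))
    exact ringChar.eq _ _
  obtain ⟨O, _, _, _, _, w, ψ, k1, k2, k3⟩ := coef_dvr A (x := algebraMap _ A (π x))
    (map_nonunit _ _ (map_nonunit _ _ x1)) (h8 ▸ x4.imp (fun e => by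
      rw [← map_natCast (algebraMap (S ⧸ I) A), e, map_zero]) fun e => by simp [e])
  obtain ⟨F, G, k4⟩ := pres k1 ψ k3 (y := algebraMap _ A (π y)) (z := algebraMap _ A (π z))
    (h7.trans ((congrArg (Ideal.map (algebraMap _ A)) (hm.symm.trans (congrArg _ h4))).trans (by
      simp only [Ideal.map_span, Set.image_insert_eq, Set.image_singleton, k2]))) (k2 ▸ h5.flat)
    (n := n) (by
      rw [h7, ← Ideal.map_pow, k2, ← Set.image_singleton, ← Ideal.map_span]
      exact Ideal.map_mono h6)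
  exact ⟨O, _, ‹_›, ‹_›, ‹_›, w, F, G, k1, k4⟩

end Pool.Agent.Lib.MP_9e3d42_al.CS
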