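import Pool.Agent.Lib.MP_9e3d42_al.CS.Main

/-! One-dimensional complete intersections whose maximal ideal has three generators. -/

open IsLocalRing RingTheory.Sequence

namespace Pool.Agent.Lib.MP_9e3d42_al.CS

universe u

/-- The Koszul relations among the members of a family. -/
def Kos {S ι : Type*} [CommRing S] [DecidableEq ι] (t : ι → S) : Submodule S (ι → S) :=
  Submodule.span S {k | ∃ i j, k = Pi.single i (t j) - Pi.single j (t i)}

section
variable {S B ι : Type*} [CommRing S] [CommRing B] [DecidableEq ι] {t : ι → S}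

lemma Kos.dot [Fintype ι] {k : ι → S} (hk : k ∈ Kos t) : k ⬝ᵥ t = 0 := by
  induction hk using Submodule.span_induction with
  | mem _ h => obtain ⟨i, j, rfl⟩ := h; simp [mul_comm]
  | zero => simp
  | add _ _ _ _ h1 h2 => simp [h1, h2]
  | smul _ _ _ h => simp [h]

lemma Kos.lift {π : S →+* B} (hπ : Function.Surjective π) {k : ι → B} (hk : k ∈ Kos (π ∘ t)) :
    ∃ l ∈ Kos t, ∀ i, π (l i) = k i := by
  induction hk using Submodule.span_induction with
  | mem _ h =>
    obtain ⟨i, j, rfl⟩ := h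
    exact ⟨_, Submodule.subset_span ⟨i, j, rfl⟩, fun l => by simp [Pi.single_apply, apply_ite π]⟩
  | zero => exact ⟨0, zero_mem _, by simp⟩
  | add _ _ _ _ h1 h2 =>
    obtain ⟨a, ha, h1⟩ := h1
    obtain ⟨b, hb, h2⟩ := h2
    exact ⟨a + b, add_mem ha hb, by simp [h1, h2]⟩
  | smul c _ _ h =>
    obtain ⟨a, ha, h⟩ := h
    obtain ⟨c, rfl⟩ := hπ c
    exact ⟨c • a, Submodule.smul_mem _ _ ha, by simp [h]⟩

lemma Kos.three {t : Fin 3 ⊕ ι → S} (π : S →+* B) (h0 : ∀ j, π (t (.inr j)) = 0)
    {k : Fin 3 ⊕ ι → S} (hk : k ∈ Kos t) : ∃ r s q : B,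
      π (k (.inl 0)) = r * π (t (.inl 1)) + s * π (t (.inl 2)) ∧
      π (k (.inl 1)) = -r * π (t (.inl 0)) + q * π (t (.inl 2)) ∧
      π (k (.inl 2)) = -s * π (t (.inl 0)) - q * π (t (.inl 1)) := by
  induction hk using Submodule.span_induction with
  | mem _ h =>
    obtain ⟨i, j, rfl⟩ := h
    let δ : Fin 3 → Fin 3 → B := fun a b => (if i = .inl a ∧ j = .inl b then 1 else 0) -
      if i = .inl b ∧ j = .inl a then 1 else 0
    refine ⟨δ 0 1, δ 0 2, δ 1 2, ?_⟩
    rcases i with i | i <;> rcases j with j | j <;> (try fin_cases i) <;> (try fin_cases j) <;>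
      simp [δ, h0]
  | zero => exact ⟨0, 0, 0, by simp⟩
  | add _ _ _ _ h1 h2 =>
    obtain ⟨a, b, c, h1, h3, h4⟩ := h1
    obtain ⟨d, e, f, h2, h5, h6⟩ := h2
    refine ⟨a + d, b + e, c + f, ?_, ?_, ?_⟩ <;>
      simp only [Pi.add_apply, map_add, h1, h2, h3, h4, h5, h6] <;> ring
  | smul c _ _ h =>
    obtain ⟨a, b, d, h1, h3, h4⟩ := h
    refine ⟨π c * a, π c * b, π c * d, ?_, ?_, ?_⟩ <;>
      simp only [Pi.smul_apply, smul_eq_mul, map_mul, h1, h3, h4] <;> ring

end

lemma syz {ι : Type} [Fintype ι] [DecidableEq ι] (d : ℕ) : ∀ (S : Type u) [CommRing S]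
    [IsRegularLocalRing S] (t : ι → S) (T : Finset ι), ringKrullDim S = d →
    maximalIdeal S = Ideal.span (t '' T) → ∃ J ⊆ T, J.card = d ∧
      maximalIdeal S = Ideal.span (t '' J) ∧
      ∀ s : ι → S, (∀ i ∉ J, s i = 0) → s ⬝ᵥ t = 0 → s ∈ Kos t := by
  induction d with
  | zero =>
    intro S _ _ t T hd _
    refine ⟨∅, by simp, rfl, ?_, fun s h _ => (funext fun i => h i (by simp) : s = 0) ▸ zero_mem _⟩
    rw [← IsRegularLocalRing.spanFinrank_maximalIdeal] at hd
    simpa [Submodule.spanFinrank_eq_zero_iff_eq_bot (maximalIdeal S).fg_of_isNoetherianRing]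
      using hd
  | succ d ih =>
    intro S _ _ t T hd hm
    have := AD.reg_domain (R := S)
    obtain ⟨i, hi, h2⟩ : ∃ i ∈ T, t i ∉ maximalIdeal S ^ 2 := by
      by_contra! h
      have : maximalIdeal S = ⊥ := AD.rg_nak (hm.le.trans ((Ideal.span_le.2 (by
        rintro _ ⟨i, hi, rfl⟩
        exact h i hi)).trans_eq (pow_two _)))
      rw [← IsRegularLocalRing.spanFinrank_maximalIdeal, this] at hd
      simp at hd
      norm_cast at hd
    have h1 : t i ∈ maximalIdeal S := hm.ge (Ideal.subset_span ⟨i, hi, rfl⟩)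
    have h0 : t i ≠ 0 := fun e => h2 (e ▸ zero_mem _)
    have := AD.reg_quot h1 h2
    let π := Ideal.Quotient.mk (Ideal.span {t i})
    have hπ : Function.Surjective π := Ideal.Quotient.mk_surjective
    have hz : π (t i) = 0 := Ideal.Quotient.eq_zero_iff_mem.2 (Ideal.mem_span_singleton_self _)
    have := IsLocalHom.of_surjective π hπ
    obtain ⟨J, h3, h4, h5, h6⟩ := ih (S ⧸ Ideal.span {t i}) (π ∘ t) (T.erase i) (by
      rw [← ringKrullDim_quotient_span_singleton_succ_eq_ringKrullDim_of_mem_nonZeroDivisors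
        (mem_nonZeroDivisors_of_ne_zero h0) h1, ← IsRegularLocalRing.spanFinrank_maximalIdeal]
        at hd
      rw [← IsRegularLocalRing.spanFinrank_maximalIdeal]
      exact_mod_cast Nat.succ_injective (by exact_mod_cast hd)) (by
      rw [← map_maximalIdeal_of_surjective π hπ, hm, Ideal.map_span, Set.image_image]
      conv_lhs => rw [← Finset.insert_erase hi, Finset.coe_insert, Set.image_insert_eq, hz,
        Ideal.span_insert_zero]
      rfl)
    have hJ : i ∉ J := fun h => by simpa using h3 h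
    refine ⟨insert i J, Finset.insert_subset hi (h3.trans (Finset.erase_subset _ _)),
      by simp [hJ, h4], ?_, fun s hs hs' => ?_⟩
    · rw [← maximalIdeal_comap π, h5, Set.image_comp, ← Ideal.map_span,
        Ideal.comap_map_of_surjective π hπ, ← RingHom.ker_eq_comap_bot, Ideal.mk_ker,
        Finset.coe_insert, Set.image_insert_eq, Ideal.span_insert, sup_comm]
    obtain ⟨k, hk, e⟩ := Kos.lift hπ (h6 (π ∘ (s - Pi.single i (s i))) (fun j hj => by
      by_cases h : j = i <;> simp [h, hs, hj]) (by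
      rw [← RingHom.map_dotProduct]
      simp [hs', hz]))
    have : ∀ j, ∃ q, j ≠ i → s j - k j = q * t i := fun j => by
      obtain ⟨q, hq⟩ := Ideal.mem_span_singleton'.1 (Ideal.Quotient.eq.1 (e j).symm)
      exact ⟨q, fun h => by simpa [h] using hq.symm⟩
    choose q hq using this
    have hK : k + ∑ j, q j • (Pi.single j (t i) - Pi.single i (t j) : ι → S) ∈ Kos t :=
      add_mem hk (Submodule.sum_mem _ fun j _ => Submodule.smul_mem _ _
        (Submodule.subset_span ⟨j, i, rfl⟩))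
    have h7 := Kos.dot hK
    generalize hl : k + ∑ j, q j • (Pi.single j (t i) - Pi.single i (t j) : ι → S) = l at hK h7
    have h8 : ∀ j ≠ i, s j = l j := fun j h => by
      simp [← hl, Pi.single_apply, h, ← hq j h]
    have h9 : (s - l) ⬝ᵥ t = (s i - l i) * t i :=
      Finset.sum_eq_single i (fun j _ h => by simp [h8 j h]) (by simp)
    rw [sub_dotProduct, hs', h7, sub_zero, eq_comm, mul_eq_zero_iff_right h0, sub_eq_zero] at h9
    rwa [funext fun j => if h : j = i then h ▸ h9 else h8 j h]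

lemma kd_any {S : Type u} [CommRing S] [IsRegularLocalRing S] {fs : List S}
    (hd : ringKrullDim S = (fs.length + 1 : ℕ)) {x y z : S}
    (hm : maximalIdeal S = Ideal.span {x, y, z} ⊔ Ideal.ofList fs) :
    KD (Ideal.Quotient.mk (Ideal.ofList fs) x) (Ideal.Quotient.mk _ y) (Ideal.Quotient.mk _ z) := by
  let t : Fin 3 ⊕ Fin fs.length → S := Sum.elim ![x, y, z] fs.get
  have e : Ideal.ofList fs = Ideal.span (Set.range fs.get) := by
    simp [Ideal.ofList, Set.range_list_get]
  obtain ⟨J, -, h1, h2, h3⟩ := syz _ S t Finset.univ hd (by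
    simp [hm, t, e, Matrix.range_cons, Ideal.span_insert, sup_assoc, sup_left_comm])
  obtain ⟨a, b, hab, h4⟩ := Finset.card_eq_two.1 (show Jᶜ.card = 2 by
    simp [Finset.card_compl, h1]; omega)
  have : ∀ i, ∃ r : _ → S, (∀ j ∉ J, r j = (Pi.single i 1 : _ → S) j) ∧ r ⬝ᵥ t = 0 := fun i => by
    have : t i ∈ Ideal.span (t '' J) := h2.le (hm.ge (by
      rcases i with i | i
      · exact Ideal.mem_sup_left (Ideal.subset_span (by fin_cases i <;> simp [t]))
      · exact Ideal.mem_sup_right (e.ge (Ideal.subset_span ⟨i, rfl⟩))))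
    obtain ⟨c, hc⟩ := (Submodule.mem_span_image_finset_iff_exists_fun' S).1 this
    exact ⟨Pi.single i 1 - fun j => if j ∈ J then c j else 0, fun j h => by simp [h], by
      rw [sub_dotProduct, single_one_dotProduct, ← hc, sub_eq_zero]
      simp [dotProduct]⟩
  choose r h5 h6 using this
  let π := Ideal.Quotient.mk (Ideal.ofList fs)
  have h0 : ∀ j, π (t (.inr j)) = 0 := fun j =>
    Ideal.Quotient.eq_zero_iff_mem.2 (e.ge (Ideal.subset_span ⟨j, rfl⟩))
  have h7 : ∀ i, π (r i (.inl 0)) * π x + π (r i (.inl 1)) * π y + π (r i (.inl 2)) * π z = 0 :=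
    fun i => by
      have := congrArg π (h6 i)
      simp only [dotProduct, Fintype.sum_sum_type, map_add, map_sum, map_mul, h0, mul_zero,
        Fin.sum_univ_three, Finset.sum_const_zero, add_zero, map_zero] at this
      exact this
  refine ⟨_, _, _, _, _, _, h7 a, h7 b, ?_⟩
  simp only [(Ideal.Quotient.mk_surjective (I := Ideal.ofList fs)).forall]
  intro u v w H
  obtain ⟨g, hg⟩ := Ideal.mem_span_range_iff_exists_fun.1 (e.le (Ideal.Quotient.eq_zero_iff_mem.1
    (show π (u * x + v * y + w * z) = 0 by simpa using H)))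
  let s : Fin 3 ⊕ Fin fs.length → S := Sum.elim ![u, v, w] (-g)
  obtain ⟨p, q, n, k1, k2, k3⟩ := Kos.three π h0 (h3 (s - s a • r a - s b • r b) (fun j hj => by
    obtain rfl | rfl := by simpa using h4.le (Finset.mem_compl.2 hj)
    all_goals simp [h5 _ _ hj, hab, hab.symm]) (by
    rw [sub_dotProduct, sub_dotProduct, smul_dotProduct, smul_dotProduct, h6, h6]
    simp [s, t, dotProduct, hg, Fin.sum_univ_three, -List.get_eq_getElem]))
  simp only [Pi.sub_apply, Pi.smul_apply, smul_eq_mul, map_sub, map_mul] at k1 k2 k3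
  change π u - _ - _ = _ * π y + _ * π z at k1
  change π v - _ - _ = _ * π x + _ * π z at k2
  change π w - _ - _ = _ * π x - _ * π y at k3
  exact ⟨s a, s b, p, q, n, by linear_combination k1, by linear_combination k2,
    by linear_combination k3⟩

lemma davis {B : Type*} [CommRing B] [IsNoetherianRing B] {x : B} {J : Ideal B}
    (h : ∀ P ∈ minimalPrimes B, ¬ Ideal.span {x} ⊔ J ≤ P) :
    ∃ j ∈ J, ∀ P ∈ minimalPrimes B, x + j ∉ P := by
  classical
  let T := (minimalPrimes.finite_of_isNoetherianRing B).toFinset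
  have hT : ∀ P ∈ T, P ∈ minimalPrimes B := fun P => (Set.Finite.mem_toFinset _).1
  obtain ⟨j, hj, hj'⟩ := Set.not_subset.1 (mt (Ideal.subset_union_prime (f := id)
    (s := T.filter (x ∈ ·)) (I := J ⊓ (T.filter (x ∉ ·)).inf id) ⊤ ⊤ fun P hP _ _ =>
      Ideal.IsMinimalPrime.isPrime (hT P (Finset.mem_filter.1 hP).1)).1 (by
    rintro ⟨P, hP, h1⟩
    obtain ⟨hP, hx⟩ := Finset.mem_filter.1 hP
    have := Ideal.IsMinimalPrime.isPrime (hT P hP)
    obtain h1 | h1 := this.inf_le.1 h1
    · exact h P (hT P hP) (sup_le (by simpa) h1)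
    obtain ⟨Q, hQ, h1⟩ := this.inf_le'.1 h1
    obtain ⟨hQ, hx'⟩ := Finset.mem_filter.1 hQ
    exact hx' ((hT P hP).2 (hT Q hQ).1 h1 hx)))
  simp only [Set.mem_iUnion, not_exists] at hj'
  refine ⟨j, hj.1, fun P hP h1 => ?_⟩
  have h2 : P ∈ T := (Set.Finite.mem_toFinset _).2 hP
  by_cases hx : x ∈ P
  · exact hj' P (Finset.mem_filter.2 ⟨h2, hx⟩) ((P.add_mem_iff_right hx).1 h1)
  · exact hx ((P.add_mem_iff_left (Finset.inf_le (f := id) (Finset.mem_filter.2 ⟨h2, hx⟩)
      hj.2)).1 h1)

theorem cohen_ci' (S : Type u) [CommRing S] [IsRegularLocalRing S] (fs : List S)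
    (hfs : IsRegular S fs) (hd : ringKrullDim (S ⧸ Ideal.ofList fs) = 1)
    [IsLocalRing (S ⧸ Ideal.ofList fs)]
    (hc : ∃ x y z : S ⧸ Ideal.ofList fs, Ideal.span {x, y, z} = maximalIdeal _ ∧
      ((ringChar (ResidueField S) : S ⧸ Ideal.ofList fs) = 0 ∨
        (x = ringChar (ResidueField S) ∧ x ∈ nonZeroDivisors (S ⧸ Ideal.ofList fs)))) :
    ∃ (O : Type u) (_ : CommRing O) (_ : IsDomain O) (_ : IsDiscreteValuationRing O)
      (_ : IsAdicComplete (maximalIdeal O) O) (w : O) (F G : MvPowerSeries (Fin 2) O),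
      Irreducible w ∧ IsRegular (MvPowerSeries (Fin 2) O) [F, G, MvPowerSeries.C w] ∧
      Nonempty (AdicCompletion (maximalIdeal (S ⧸ Ideal.ofList fs)) (S ⧸ Ideal.ofList fs) ≃+*
        MvPowerSeries (Fin 2) O ⧸ Ideal.span {F, G}) := by
  have h1 := ringKrullDim_add_length_eq_ringKrullDim_of_isRegular fs hfs
  have hK := @kd_any S _ _ fs (by rw [← h1, hd, add_comm]; norm_cast)
  generalize Ideal.ofList fs = I at *
  let π := Ideal.Quotient.mk I
  have hπ : Function.Surjective π := Ideal.Quotient.mk_surjective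
  have := IsLocalHom.of_surjective π hπ
  have hh : (maximalIdeal (S ⧸ I)).height = 1 := by
    exact_mod_cast maximalIdeal_height_eq_ringKrullDim.trans hd
  obtain ⟨x, y, z, hm, x3, x4⟩ : ∃ x y z : S ⧸ I, Ideal.span {x, y, z} = maximalIdeal _ ∧
      (∀ P ∈ minimalPrimes (S ⧸ I), x ∉ P) ∧
      ((ringChar (ResidueField S) : S ⧸ I) = 0 ∨ x = ringChar (ResidueField S)) := by
    obtain ⟨x, y, z, hm, hc | ⟨h2, h3⟩⟩ := hc
    · obtain ⟨j, h2, h3⟩ := davis (x := x) (J := Ideal.span {y, z}) fun P hP h => by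
        rw [← Ideal.span_insert, hm] at h
        simpa using hh.symm.trans (Ideal.height_eq_zero_iff.2
          ((le_maximalIdeal (Ideal.IsMinimalPrime.isPrime hP).ne_top).antisymm h ▸ hP))
      refine ⟨x + j, y, z, hm ▸ ?_, h3, .inl hc⟩
      rw [Ideal.span_insert, Ideal.span_insert x]
      refine le_antisymm (sup_le ?_ le_sup_right) (sup_le ?_ le_sup_right) <;>
        rw [Ideal.span_singleton_le_iff_mem]
      · exact Submodule.add_mem_sup (Ideal.mem_span_singleton_self x) h2
      · simpa using Submodule.add_mem_sup (Ideal.mem_span_singleton_self (x + j)) (neg_mem h2)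
    · exact ⟨x, y, z, hm, fun P hP h =>
        notMem_nonZeroDivisors_of_mem_mem_minimalPrimes h hP h3, .inr h2⟩
  have h5 : KD x y z := by
    obtain ⟨x, rfl⟩ := hπ x
    obtain ⟨y, rfl⟩ := hπ y
    obtain ⟨z, rfl⟩ := hπ z
    refine hK ?_
    rw [← maximalIdeal_comap π, ← hm, ← Set.image_singleton, ← Set.image_insert_eq,
      ← Set.image_insert_eq, ← Ideal.map_span, Ideal.comap_map_of_surjective π hπ,
      ← RingHom.ker_eq_comap_bot, Ideal.mk_ker]
  obtain ⟨n, h6⟩ := Ideal.exists_pow_le_of_le_radical_of_fg (J := Ideal.span {x})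
    (I := maximalIdeal (S ⧸ I)) (by
      rw [Ideal.radical_eq_sInf]
      refine le_sInf fun Q ⟨hQ, _⟩ => ((le_maximalIdeal Ideal.IsPrime.ne_top').eq_or_lt.resolve_right
        fun h => x3 Q ?_ (hQ (Ideal.mem_span_singleton_self _))).ge
      have := Ideal.height_strict_mono_of_isPrime h
      rwa [hh, Order.lt_one_iff, Ideal.height_eq_zero_iff] at this) (Ideal.fg_of_isNoetherianRing _)
  let A := AdicCompletion (maximalIdeal (S ⧸ I)) (S ⧸ I)
  have h7 : maximalIdeal A = _ := AdicCompletion.maximalIdeal_eq_map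
  have h8 : ringChar (ResidueField A) = ringChar (ResidueField S) := by
    have := charP_of_injective_ringHom ((ResidueField.map (algebraMap _ A)).comp
      (ResidueField.map π)).injective (ringChar (ResidueField S))
    exact ringChar.eq _ _
  obtain ⟨O, _, _, _, _, w, ψ, k1, k2, k3⟩ := coef_dvr A (x := algebraMap _ A x)
    (map_nonunit _ _ (hm.le (Ideal.subset_span (.inl rfl)))) (h8 ▸ x4.imp (fun e => by
      rw [← map_natCast (algebraMap (S ⧸ I) A), e, map_zero]) fun e => by simp [e])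
  obtain ⟨F, G, k4⟩ := pres k1 ψ k3 (y := algebraMap _ A y) (z := algebraMap _ A z)
    (h7.trans ((congrArg (Ideal.map (algebraMap _ A)) hm.symm).trans (by
      simp only [Ideal.map_span, Set.image_insert_eq, Set.image_singleton, k2]))) (k2 ▸ h5.flat)
    (n := n) (by
      rw [h7, ← Ideal.map_pow, k2, ← Set.image_singleton, ← Ideal.map_span]
      exact Ideal.map_mono h6)
  exact ⟨O, _, ‹_›, ‹_›, ‹_›, w, F, G, k1, k4⟩

end Pool.Agent.Lib.MP_9e3d42_al.CS
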