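import Mathlib

/-! Field extensions of perfect fields are formally smooth. -/

open MvPolynomial Algebra

namespace Pool.Agent.Lib.MP_9e3d42_al.CS

lemma h1_iff (R A : Type*) [CommRing R] [CommRing A] [Algebra R A] :
    Subsingleton (H1Cotangent R A) ↔ ∀ f ∈ RingHom.ker (aeval (R := R) (id : A → A)),
      (∀ i, aeval id (pderiv i f) = (0 : A)) → f ∈ RingHom.ker (aeval (R := R) (id : A → A)) ^ 2 := by
  let P := Generators.self R A
  have e : P.ker = RingHom.ker (aeval (R := R) (id : A → A)) := P.ker_eq_ker_aeval_val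
  refine P.toExtension.subsingleton_h1Cotangent.trans ((injective_iff_map_eq_zero _).trans ?_)
  rw [Extension.Cotangent.mk_surjective.forall, ← e]
  refine Subtype.forall.trans (forall₂_congr fun f hf => imp_congr ?_
    (Extension.Cotangent.mk_eq_zero_iff _))
  rw [← P.cotangentSpaceBasis.repr.map_eq_zero_iff, Finsupp.ext_iff]
  exact forall_congr' fun i => iff_of_eq (congrArg (· = (0 : A))
    (P.cotangentSpaceBasis_repr_one_tmul f i))

theorem fs_field (F K : Type*) [Field F] [PerfectField F] [Field K] [Algebra F K] :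
    FormallySmooth F K := by
  refine ⟨inferInstance, (h1_iff F K).2 fun f h0 h1 => ?_⟩
  obtain ⟨L, hL, hf⟩ : ∃ L : IntermediateField F K, L.FG ∧ (f.vars : Set K) ⊆ L :=
    ⟨_, ⟨f.vars, rfl⟩, IntermediateField.subset_adjoin _ _⟩
  have : EssFiniteType F L := IntermediateField.essFiniteType_iff.2 hL
  obtain ⟨g, rfl⟩ := exists_rename_eq_of_vars_subset_range f ((↑) : L → K) Subtype.val_injective
    fun x hx => ⟨⟨x, hf hx⟩, rfl⟩
  have e (q : MvPolynomial L F) :
      aeval id (rename ((↑) : L → K) q) = algebraMap L K (aeval id q) := by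
    rw [aeval_rename, ← aeval_algebraMap_apply]; rfl
  have h := (h1_iff F L).1 inferInstance g ((algebraMap L K).injective ((e g).symm.trans
    (h0.trans (map_zero _).symm))) fun i => (algebraMap L K).injective (by
      rw [← e, ← pderiv_rename Subtype.val_injective, h1, map_zero])
  have h2 := Ideal.mem_map_of_mem (rename ((↑) : L → K)) h
  rw [Ideal.map_pow] at h2
  refine Ideal.pow_right_mono (Ideal.map_le_iff_le_comap.2 fun q hq => ?_) 2 h2
  exact (e q).trans ((congrArg _ hq).trans (map_zero _))

end Pool.Agent.Lib.MP_9e3d42_al.CS
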