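import Pool.Agent.Lib.MP_9e3d42_al.CS.Ev
import Pool.Agent.Lib.MP_9e3d42_al.CT.PS

/-! Presentations by power series in two variables over a complete discrete valuation ring. -/

open IsLocalRing MvPowerSeries RingTheory.Sequence

namespace Pool.Agent.Lib.MP_9e3d42_al.CS

/-- The relations among `x, y, z` are generated by two relations and the trivial ones. -/
def KD {B : Type*} [CommRing B] (x y z : B) : Prop :=
  ∃ a b c d e f : B, a * x + b * y + c * z = 0 ∧ d * x + e * y + f * z = 0 ∧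
    ∀ u v w, u * x + v * y + w * z = 0 → ∃ α β r s t, u = α * a + β * d + r * y + s * z ∧
      v = α * b + β * e - r * x + t * z ∧ w = α * c + β * f - s * x - t * y

lemma dec {O : Type*} [CommRing O] (q : MvPowerSeries (Fin 2) O) :
    ∃ a b, q = C (constantCoeff q) + a * X 0 + b * X 1 := by
  obtain ⟨p, hp, a, b, rfl⟩ := CT.ps_box 0 q
  obtain ⟨c, rfl⟩ : ∃ c, p = .C c := ⟨_, MvPolynomial.totalDegree_eq_zero_iff_eq_C.1
    ((MvPolynomial.totalDegree_eq_zero_iff _ _).2 fun s hs i =>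
      Nat.le_zero.1 ((MvPolynomial.mem_restrictDegree _ _ _).1 hp s hs i))⟩
  exact ⟨a, b, by simp [mul_comm, MvPowerSeries.algebraMap_apply]⟩

lemma sat {k : Type*} [Field k] {H : MvPowerSeries (Fin 2) k} (hH : H ≠ 0) (n : ℕ) :
    ∀ u, (∀ q ∈ (Ideal.span {X 0, X 1} : Ideal (MvPowerSeries (Fin 2) k)) ^ n, H ∣ u * q) →
      H ∣ u := by
  induction n with
  | zero => exact fun u h => by simpa using h 1 (by simp)
  | succ n ih =>
    intro u h
    have h1 : ∀ y ∈ (Ideal.span {X 0, X 1} : Ideal (MvPowerSeries (Fin 2) k)), H ∣ u * y :=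
      fun y hy => ih _ fun q hq => mul_assoc u y q ▸ h _ (by
        rw [pow_succ']; exact Ideal.mul_mem_mul hy hq)
    obtain ⟨a, ha⟩ := h1 _ (Ideal.subset_span (.inl rfl))
    obtain ⟨b, hb⟩ := h1 _ (Ideal.subset_span (.inr rfl))
    obtain ⟨w, -, rfl⟩ := ps_koszul b a (mul_left_cancel₀ hH (by
      linear_combination X 1 * ha - X 0 * hb))
    exact ⟨w, mul_left_cancel₀ (a := X 0) (fun h0 => by
      simpa using congrArg (coeff (Finsupp.single 0 1)) h0) (by linear_combination ha)⟩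

lemma reg_two {k : Type*} [Field k] {f g : MvPowerSeries (Fin 2) k} (hg : ¬IsUnit g) {n : ℕ}
    (h : ∀ q ∈ (Ideal.span {X 0, X 1} : Ideal (MvPowerSeries (Fin 2) k)) ^ n,
      q ∈ Ideal.span {f, g}) : IsWeaklyRegular (MvPowerSeries (Fin 2) k) [f, g] := by
  have hf : f ≠ 0 := by
    rintro rfl
    simp only [Ideal.span_insert_zero, Ideal.mem_span_singleton] at h
    refine hg (isUnit_of_dvd_one (sat ?_ n 1 fun q hq => (one_mul q).symm ▸ h q hq))
    rintro rfl
    simpa using congrArg (coeff (Finsupp.single 0 1)) (pow_eq_zero_iff'.1 (zero_dvd_iff.1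
      (h _ (Ideal.pow_mem_pow (Ideal.subset_span (.inl rfl)) n)))).1
  rw [isWeaklyRegular_cons_iff, isWeaklyRegular_singleton_iff]
  refine ⟨fun a b e => mul_left_cancel₀ hf e,
    (isSMulRegular_quotient_iff_mem_of_smul_mem _ _).2 fun u hu => ?_⟩
  simp only [Submodule.mem_smul_pointwise_iff_exists, Submodule.mem_top, true_and,
    smul_eq_mul] at hu ⊢
  obtain ⟨a, ha⟩ := hu
  refine (sat hf n u fun q hq => ?_).imp fun _ => Eq.symm
  obtain ⟨s, t, rfl⟩ := Ideal.mem_span_pair.1 (h q hq)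
  exact ⟨u * s + t * a, by linear_combination -t * ha⟩

variable {O : Type*} [CommRing O] [IsDomain O] [IsDiscreteValuationRing O] {x : O}

lemma dec_max (hx : Irreducible x) {q : MvPowerSeries (Fin 2) O} (hq : ¬IsUnit q) :
    ∃ u v w, q = u * C x + v * X 0 + w * X 1 := by
  obtain ⟨a, b, h⟩ := dec q
  obtain ⟨c, hc⟩ := Ideal.mem_span_singleton'.1 (hx.maximalIdeal_eq.le
    (mt isUnit_iff_constantCoeff.2 hq))
  exact ⟨C c, a, b, by rwa [← map_mul, hc]⟩

lemma reg_three (hx : Irreducible x) {F G : MvPowerSeries (Fin 2) O} (hF : ¬IsUnit F)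
    (hG : ¬IsUnit G) {n : ℕ}
    (h : ∀ q ∈ (Ideal.span {X 0, X 1} : Ideal (MvPowerSeries (Fin 2) O)) ^ n,
      ∃ a, q - C x * a ∈ Ideal.span {F, G}) :
    IsRegular (MvPowerSeries (Fin 2) O) [F, G, C x] := by
  let μ := MvPowerSeries.map (σ := Fin 2) (residue O)
  have hμ : Function.Surjective μ := fun q => by
    choose a ha using fun m => residue_surjective (coeff m q)
    exact ⟨a, MvPowerSeries.ext ha⟩
  have h0 : μ (C x) = 0 := by simp [μ, (residue_eq_zero_iff x).2 hx.not_isUnit]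
  let E : QuotSMulTop (C x : MvPowerSeries (Fin 2) O) (MvPowerSeries (Fin 2) O) ≃+
      MvPowerSeries (Fin 2) (ResidueField O) := ((Submodule.quotEquivOfEq _ (RingHom.ker μ)
    (Submodule.ext fun q => by
      simp only [Submodule.mem_smul_pointwise_iff_exists, Submodule.mem_top, true_and,
        smul_eq_mul, RingHom.mem_ker]
      refine ⟨?_, fun e => ?_⟩
      · rintro ⟨a, rfl⟩
        rw [map_mul, h0, zero_mul]
      · choose a ha using fun m => Ideal.mem_span_singleton'.1 (hx.maximalIdeal_eq ▸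
          (residue_eq_zero_iff _).1 (congrArg (coeff m) e))
        exact ⟨a, MvPowerSeries.ext fun m => (coeff_C_mul m a x).trans
          ((mul_comm _ _).trans (ha m))⟩)).toAddEquiv).trans
    (RingHom.quotientKerEquivOfSurjective hμ).toAddEquiv
  have hE : ∀ a q, E (a • q) = μ a • E q := fun a q => by
    obtain ⟨q, rfl⟩ := Submodule.Quotient.mk_surjective _ q
    exact map_mul μ a q
  refine isRegular_of_perm (rs := [C x, F, G]) ?_ (List.perm_append_comm (l₁ := [C x]))
  rw [isRegular_iff_isWeaklyRegular_of_subset_maximalIdeal (by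
    simpa [hF, hG, isUnit_iff_constantCoeff (φ := C x)] using hx.not_isUnit),
    isWeaklyRegular_cons_iff,
    E.isWeaklyRegular_congr (bs := [μ F, μ G]) (.cons (hE F) (.cons (hE G) .nil))]
  refine ⟨fun a b e => mul_left_cancel₀ (fun e => hx.ne_zero (by
    simpa using congrArg constantCoeff e)) e, reg_two (n := n) (fun hu => hG ?_) fun q hq => ?_⟩
  · rw [isUnit_iff_constantCoeff] at hu ⊢
    exact (residue_ne_zero_iff_isUnit _).1 hu.ne_zero
  · have e : (Ideal.span {X 0, X 1} : Ideal (MvPowerSeries (Fin 2) O)).map μ =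
        Ideal.span {X 0, X 1} := by simp [Ideal.map_span, Set.image_pair, μ]
    rw [← e, ← Ideal.map_pow] at hq
    obtain ⟨r, hr, rfl⟩ := (Ideal.mem_map_iff_of_surjective μ hμ).1 hq
    obtain ⟨a, ha⟩ := h r hr
    simpa [Ideal.map_span, Set.image_pair, h0] using Ideal.mem_map_of_mem μ ha

theorem pres [IsAdicComplete (maximalIdeal O) O] (hx : Irreducible x) {A : Type*} [CommRing A]
    [IsLocalRing A] [IsAdicComplete (maximalIdeal A) A] (ψ : O →+* A)
    (hψ : ∀ a, ∃ o, a - ψ o ∈ maximalIdeal A) {y z : A}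
    (hm : maximalIdeal A = Ideal.span {ψ x, y, z}) (hK : KD (ψ x) y z) {n : ℕ}
    (hn : maximalIdeal A ^ n ≤ Ideal.span {ψ x}) :
    ∃ F G : MvPowerSeries (Fin 2) O, IsRegular (MvPowerSeries (Fin 2) O) [F, G, C x] ∧
      Nonempty (A ≃+* MvPowerSeries (Fin 2) O ⧸ Ideal.span {F, G}) := by
  have hy : y ∈ maximalIdeal A := hm.ge (Ideal.subset_span (by simp))
  have hz : z ∈ maximalIdeal A := hm.ge (Ideal.subset_span (by simp))
  have h0 : ψ x ∈ maximalIdeal A := hm.ge (Ideal.subset_span (by simp))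
  obtain ⟨φ, h1, h2⟩ := exists_ev (σ := Fin 2) (maximalIdeal A) ψ ![y, z]
    (Fin.forall_fin_two.2 ⟨hy, hz⟩)
  have h3 : φ (X 0) = y := h2 0
  have h4 : φ (X 1) = z := h2 1
  have hI : (Ideal.span {C x, X 0, X 1}).map φ = maximalIdeal A := by
    simp [Ideal.map_span, Set.image_insert_eq, h1, h3, h4, hm]
  have hx' : (Ideal.span {C x}).map φ = Ideal.span {ψ x} := by simp [Ideal.map_span, h1]
  have hφ : Function.Surjective φ := by
    have : IsPrecomplete (Ideal.span {x}) O := hx.maximalIdeal_eq ▸ inferInstance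
    have : IsPrecomplete (Ideal.span {x}) (MvPowerSeries (Fin 2) O) := CT.pre_pi (Fin 2 →₀ ℕ)
    rw [← IsPrecomplete.map_algebraMap_iff (S := MvPowerSeries (Fin 2) O), Ideal.map_span,
      Set.image_singleton] at this
    have : IsPrecomplete (Ideal.span {C x}) (MvPowerSeries (Fin 2) O) := this
    have : IsHausdorff ((Ideal.span {C x}).map φ) A := .of_map (S := A) (J := maximalIdeal A)
      (by simpa [hx'] using h0)
    refine surjective_of_mk_map_comp_surjective φ (I := Ideal.span {C x}) fun a => ?_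
    obtain ⟨a, rfl⟩ := Ideal.Quotient.mk_surjective a
    obtain ⟨p, hp⟩ := approx φ _ (fun a => (hψ a).elim fun o ho => ⟨C o, by rwa [hI, h1]⟩) n a
    exact ⟨p, (Ideal.Quotient.eq.2 (hx' ▸ hn (hI ▸ hp))).symm⟩
  simp only [KD, hφ.exists] at hK
  obtain ⟨a, b, c, d, e, f, k1, k2, hK⟩ := hK
  have hu : ∀ q, φ q = 0 → ¬IsUnit q := fun q hq h => not_isUnit_zero (hq ▸ h.map φ)
  have ev : ∀ u v w, φ (u * C x + v * X 0 + w * X 1) = φ u * ψ x + φ v * y + φ w * z := by
    simp [h1, h3, h4]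
  have hJ : RingHom.ker φ = Ideal.span {a * C x + b * X 0 + c * X 1, d * C x + e * X 0 + f * X 1} := by
    refine le_antisymm (Submodule.le_of_le_smul_of_le_jacobson_bot (I := maximalIdeal _)
      (Ideal.fg_of_isNoetherianRing _) (maximalIdeal_le_jacobson _) fun q hq => ?_)
      (Ideal.span_le.2 (Set.pair_subset ((ev ..).trans k1) ((ev ..).trans k2)))
    obtain ⟨u, v, w, rfl⟩ := dec_max hx (hu q hq)
    obtain ⟨α, β, r, s, t, e1, e2, e3⟩ := hK _ _ _ ((ev ..).symm.trans hq)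
    have m1 : ∀ p, constantCoeff p ∈ maximalIdeal O → ∀ q, φ q = 0 →
        p * q ∈ maximalIdeal (MvPowerSeries (Fin 2) O) • RingHom.ker φ := fun p hp q hq =>
      Submodule.smul_mem_smul (mt isUnit_iff_constantCoeff.1 hp) hq
    refine Submodule.mem_sup.2 ⟨_, Ideal.mem_span_pair.2 ⟨α, β, rfl⟩, _, add_mem (add_mem
      (m1 (C x) hx.not_isUnit (u - (α * a + β * d + r * X 0 + s * X 1)) ?_)
      (m1 (X 0) (by simp) (v - (α * b + β * e - r * C x + t * X 1)) ?_))
      (m1 (X 1) (by simp) (w - (α * c + β * f - s * C x - t * X 0)) ?_), by ring⟩ <;>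
    simp [h1, h3, h4, e1, e2, e3]
  refine ⟨_, _, reg_three hx (hu _ ((ev ..).trans k1)) (hu _ ((ev ..).trans k2)) (n := n)
    fun q hq => ?_, ⟨(RingHom.quotientKerEquivOfSurjective hφ).symm.trans
      (Ideal.quotEquivOfEq hJ)⟩⟩
  obtain ⟨g, hg⟩ := Ideal.mem_span_singleton'.1 (hn (hI ▸ Ideal.map_pow φ _ n ▸
    Ideal.mem_map_of_mem φ (Ideal.pow_right_mono (Ideal.span_mono (Set.subset_insert _ _)) n hq)))
  obtain ⟨g, rfl⟩ := hφ g
  exact ⟨g, hJ.le (by rw [RingHom.mem_ker, map_sub, map_mul, h1, ← hg, mul_comm, sub_self])⟩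

end Pool.Agent.Lib.MP_9e3d42_al.CS
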